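import Pool.Agent.H49.TRO.S1
import Pool.Agent.H49.FOS.S1

/-! Board `tro`, row ROD: odd savings. -/

set_option autoImplicit false

namespace Pool.TRO

open MvPolynomial Pool.FOS Pool.TRN

theorem t_rod (h_tro : TROStmt) (h_vnt : VNTStmt) (h_ong : ONGStmt) (h_ter : Pool.FOS.TERStmt)
    (h_nmc : NMCStmt) : RODStmt := by
  intro k d u hk hd hkd hu hud
  obtain ⟨i, h₁, h₂, c, a1, a2, a3, a4, a5, a6, a7, a8⟩ := h_nmc k d u hk hkd hu hud
  have h := h_tro d h₁ h₂ i (k * d) (k - 2) c (k - 3) (k - 3 - u) a1 a2 a3 a4 a5 a6 a7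
  rw [a8] at h
  obtain ⟨P, hP⟩ := h_vnt (d + 1) _ (k * d) h
  exact h_ter 3 k d _ (by omega) (h_ong 1 k d _ P (by omega) hP)

end Pool.TRO
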