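import Pool.Agent.H49.TRO.S1
import Pool.Agent.H49.FOS.S1

/-! Board `tro`, row RON: the conjectured value plus one. -/

set_option autoImplicit false

namespace Pool.TRO

open MvPolynomial Pool.FOS Pool.TRN

theorem t_ron (h_rod : RODStmt) (h_res : RESStmt) (h_mon : MONStmt) (h_nmd : NMDStmt) :
    RONStmt := by
  intro k d s hk hd h7 hs
  have hkd : k ≤ d := by
    by_contra hcon
    have h1 : d < k := by omega
    have h2 : d * d < k * k := Nat.mul_self_lt_mul_self h1
    have h3 : k * k ≤ k ^ 3 := by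
      have : k ^ 3 = k * k * k := by ring
      rw [this]
      exact Nat.le_mul_of_pos_right _ (by omega)
    have h4 : d ^ 2 = d * d := by ring
    omega
  rcases h_nmd k d s hk h7 hs with ⟨q, h1, h2, h3⟩ | ⟨u, h0, h1, h2, h3⟩
  · exact h_mon 3 k d _ _ (by omega) h3 ((h_res k d hk hd).2.1 q (by omega) h1 h2)
  · exact h_mon 3 k d _ _ (by omega) h3 (h_rod k d u h0 hd (by omega) h1 h2)

end Pool.TRO
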